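import Pool.Agent.Helper61.GT.Goals

/-!
# Project GT (MP_552bae_an), packet GT-AVG
-/

set_option autoImplicit false

namespace Pool.Agent.Helper59.GT

open Pool.Agent.Helper61.GT

universe u v

/-- A hermitian contraction is half the difference of two unitaries, up to a phase. -/
theorem comb (h : G_SQ.{u}) (A : Type u) [CStarAlgebra A] (x : A) (hx : IsSelfAdjoint x)
    (hx1 : ‖x‖ ≤ 1) : ∃ w ∈ unitary A, ∃ w' ∈ unitary A, (2 * Complex.I) • x = w - w' := by
  let _ := CStarAlgebra.spectralOrder A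
  have _ := CStarAlgebra.spectralOrderedRing A
  obtain ⟨r, hr0, -, -, -, hr⟩ := h A x 1 hx hx1 zero_le_one le_rfl
  have hrs : IsSelfAdjoint r := .of_nonneg hr0
  refine ⟨_, hr, _, Unitary.star_mem hr, ?_⟩
  rw [star_add, star_sub, star_one, hrs.star_eq, star_smul, hx.star_eq]
  have e : star (Complex.I * ((1 : ℝ) : ℂ)) = - Complex.I := by simp
  rw [e, Complex.ofReal_one, mul_one, neg_smul, two_mul, add_smul]
  abel

/-- A functional bounded by one on the unitaries is bounded by one on hermitian contractions. -/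
theorem bound (h : G_SQ.{u}) (A : Type u) [CStarAlgebra A] (L : A →ₗ[ℂ] ℂ)
    (hL : ∀ w ∈ unitary A, ‖L w‖ ≤ 1) (x : A)
    (hx : IsSelfAdjoint x ∧ ‖x‖ ≤ 1 ∨ x ∈ unitary A) : ‖L x‖ ≤ 1 := by
  rcases hx with ⟨hx, hx1⟩ | hx
  · obtain ⟨w, hw, w', hw', e⟩ := comb h A x hx hx1
    have e2 : (2 * Complex.I) * L x = L w - L w' := by
      rw [← map_sub, ← e, map_smul, smul_eq_mul]
    have e3 : 2 * ‖L x‖ = ‖L w - L w'‖ := by
      rw [← e2]
      simp
    have e4 := (norm_sub_le (L w) (L w')).trans (add_le_add (hL w hw) (hL w' hw'))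
    linarith
  · exact hL x hx

/-- (AVG) -/
theorem gAVG : Pool.Agent.Helper61.GT.G_AVG.{u, v} := by
  intro h1 h2 A B _ _ Φ hΦ x y hx hy
  refine bound h2 B (Φ x : B →ₗ[ℂ] ℂ) (fun w hw => ?_) y hy
  exact bound h1 A ((Φ.flip w : A →L[ℂ] ℂ) : A →ₗ[ℂ] ℂ) (fun w' hw' => hΦ w' hw' w hw) x hx

end Pool.Agent.Helper59.GT
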